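import Pool.Agent.Helper13_FK.Stmts

/-!
# Squad FK, module L1: few solutions of a divisibility on a line
-/

set_option autoImplicit false

open Polynomial Finset

namespace Pool.Agent.FK.H11

/-- `q` divides `a` times the Vandermonde product. -/
theorem dvd_vandermonde {d : ℕ} {Φ : ℤ[X]} (hd : Φ.natDegree = d) {q : ℤ} (t : Fin (d + 1) → ℤ)
    (h : ∀ i, q ∣ Φ.eval (t i)) :
    q ∣ Φ.leadingCoeff * ∏ i : Fin (d + 1), ∏ j ∈ Ioi i, (t j - t i) := by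
  choose w hw using h
  have h1 : (Matrix.vandermonde t).mulVec (fun k : Fin (d + 1) => Φ.coeff k) = q • w := by
    funext i
    rw [Pi.smul_apply, smul_eq_mul, ← hw, eval_eq_sum_range' (n := d + 1) (by omega),
      ← Fin.sum_univ_eq_sum_range (fun k => Φ.coeff k * t i ^ k), Matrix.mulVec, dotProduct]
    refine sum_congr rfl fun k _ => ?_
    rw [Matrix.vandermonde_apply, mul_comm]
  have h2 : Matrix.cramer (Matrix.vandermonde t) (q • w) =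
      (Matrix.vandermonde t).det • (fun k : Fin (d + 1) => Φ.coeff k) := by
    rw [← h1, Matrix.cramer_eq_adjugate_mulVec, Matrix.mulVec_mulVec, Matrix.adjugate_mul,
      Matrix.smul_mulVec, Matrix.one_mulVec]
  rw [map_smul] at h2
  have h3 := congrFun h2 (Fin.last d)
  rw [Pi.smul_apply, Pi.smul_apply, smul_eq_mul, smul_eq_mul, Fin.val_last,
    Matrix.det_vandermonde] at h3
  refine ⟨Matrix.cramer (Matrix.vandermonde t) w (Fin.last d), ?_⟩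
  rw [h3, leadingCoeff, hd, mul_comm]

theorem sum_card_Ioi (d : ℕ) : (∑ i : Fin (d + 1), (Ioi i).card) * 2 = d * (d + 1) := by
  have h1 : ∀ i : Fin (d + 1), (Ioi i).card = d + 1 - 1 - (i : ℕ) := fun i => Fin.card_Ioi i
  rw [sum_congr rfl fun i _ => h1 i, Fin.sum_univ_eq_sum_range (fun k => d + 1 - 1 - k),
    sum_range_reflect (fun k => k) (d + 1), sum_range_id_mul_two, Nat.add_sub_cancel, mul_comm]

/-- In a short interval there are at most `d` solutions. -/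
theorem card_le {d : ℕ} {Φ : ℤ[X]} (hd : Φ.natDegree = d) (ha : Φ.leadingCoeff ≠ 0) {q : ℕ}
    {l : ℝ} (hl : 0 ≤ l)
    (hq : |(Φ.leadingCoeff : ℝ)| * l ^ (∑ i : Fin (d + 1), (Ioi i).card) < q) (S : Finset ℕ)
    (hS : ∀ t ∈ S, (q : ℤ) ∣ Φ.eval (t : ℤ)) (hlS : ∀ t ∈ S, ∀ u ∈ S, (u : ℝ) - t ≤ l) :
    S.card ≤ d := by
  by_contra hc
  push Not at hc
  obtain ⟨T, hT, hTc⟩ := exists_subset_card_eq hc
  have hmem : ∀ i, T.orderEmbOfFin hTc i ∈ S := fun i => hT (orderEmbOfFin_mem T hTc i)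
  have h1 := dvd_vandermonde hd (q := (q : ℤ)) (fun i => ((T.orderEmbOfFin hTc i : ℕ) : ℤ))
    (fun i => hS _ (hmem i))
  have hpos : ∀ i : Fin (d + 1), ∀ j ∈ Ioi i,
      (0 : ℤ) < ((T.orderEmbOfFin hTc j : ℕ) : ℤ) - ((T.orderEmbOfFin hTc i : ℕ) : ℤ) := by
    intro i j hj
    rw [mem_Ioi] at hj
    have h2 := (T.orderEmbOfFin hTc).strictMono hj
    omega
  have hne : Φ.leadingCoeff * ∏ i : Fin (d + 1), ∏ j ∈ Ioi i,
      (((T.orderEmbOfFin hTc j : ℕ) : ℤ) - ((T.orderEmbOfFin hTc i : ℕ) : ℤ)) ≠ 0 :=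
    mul_ne_zero ha (prod_ne_zero_iff.2 fun i _ => prod_ne_zero_iff.2 fun j hj => (hpos i j hj).ne')
  have h2 := Int.le_of_dvd (abs_pos.2 hne) ((dvd_abs _ _).2 h1)
  have h3 : (q : ℝ) ≤ |(Φ.leadingCoeff : ℝ)| * ∏ i : Fin (d + 1), ∏ j ∈ Ioi i,
      (((T.orderEmbOfFin hTc j : ℕ) : ℝ) - ((T.orderEmbOfFin hTc i : ℕ) : ℝ)) := by
    rw [abs_mul, abs_of_pos (prod_pos fun i _ => prod_pos fun j hj => hpos i j hj)] at h2
    have h4 : ((q : ℤ) : ℝ) ≤ ((|Φ.leadingCoeff| * ∏ i : Fin (d + 1), ∏ j ∈ Ioi i,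
      (((T.orderEmbOfFin hTc j : ℕ) : ℤ) - ((T.orderEmbOfFin hTc i : ℕ) : ℤ)) : ℤ) : ℝ) := by
      exact_mod_cast h2
    push_cast at h4
    exact h4
  have h4 : ∏ i : Fin (d + 1), ∏ j ∈ Ioi i,
      (((T.orderEmbOfFin hTc j : ℕ) : ℝ) - ((T.orderEmbOfFin hTc i : ℕ) : ℝ)) ≤
      l ^ (∑ i : Fin (d + 1), (Ioi i).card) := by
    have h5 : ∀ i : Fin (d + 1), ∏ j ∈ Ioi i,
        (((T.orderEmbOfFin hTc j : ℕ) : ℝ) - ((T.orderEmbOfFin hTc i : ℕ) : ℝ)) ≤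
        l ^ (Ioi i).card := by
      intro i
      rw [← prod_const]
      refine prod_le_prod (fun j hj => ?_) (fun j hj => hlS _ (hmem i) _ (hmem j))
      have h6 := hpos i j hj
      have h7 : (0 : ℝ) < ((T.orderEmbOfFin hTc j : ℕ) : ℝ) - ((T.orderEmbOfFin hTc i : ℕ) : ℝ) := by
        exact_mod_cast h6
      exact h7.le
    rw [← prod_pow_eq_pow_sum]
    refine prod_le_prod (fun i _ => prod_nonneg fun j hj => ?_) (fun i _ => h5 i)
    have h6 := hpos i j hj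
    have h7 : (0 : ℝ) < ((T.orderEmbOfFin hTc j : ℕ) : ℝ) - ((T.orderEmbOfFin hTc i : ℕ) : ℝ) := by
      exact_mod_cast h6
    exact h7.le
  have h5 := mul_le_mul_of_nonneg_left h4 (abs_nonneg (Φ.leadingCoeff : ℝ))
  linarith

/-- L1. -/
theorem l1 : L1Stmt := by
  intro d a hd ha
  have ha1 : (1 : ℝ) ≤ |(a : ℝ)| := by exact_mod_cast Int.one_le_abs ha
  have hd1 : (0 : ℝ) < (d : ℝ) * (d + 1) := by positivity
  refine ⟨d * (2 * |(a : ℝ)|) ^ (2 / ((d : ℝ) * (d + 1))), ?_⟩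
  intro Φ hdeg hlc q H hq hH
  have hq0 : (0 : ℝ) < q := by exact_mod_cast hq
  have hA : (0 : ℝ) < 2 * |(a : ℝ)| := by linarith
  obtain ⟨l, hldef⟩ : ∃ l : ℝ, l = ((q : ℝ) / (2 * |(a : ℝ)|)) ^ (2 / ((d : ℝ) * (d + 1))) :=
    ⟨_, rfl⟩
  have hl : 0 < l := by rw [hldef]; positivity
  have hlpow : l ^ (∑ i : Fin (d + 1), (Ioi i).card) = (q : ℝ) / (2 * |(a : ℝ)|) := by
    rw [hldef, ← Real.rpow_natCast, ← Real.rpow_mul (by positivity)]
    have h1 : (((∑ i : Fin (d + 1), (Ioi i).card) * 2 : ℕ) : ℝ) = ((d * (d + 1) : ℕ) : ℝ) := by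
      rw [sum_card_Ioi]
    have h2 : 2 / ((d : ℝ) * (d + 1)) * ((∑ i : Fin (d + 1), (Ioi i).card : ℕ) : ℝ) = 1 := by
      rw [Nat.cast_mul, Nat.cast_mul, Nat.cast_add, Nat.cast_one, Nat.cast_two] at h1
      field_simp
      linarith
    rw [h2, Real.rpow_one]
  have hfin : {t : ℕ | t < H ∧ (q : ℤ) ∣ Φ.eval (t : ℤ)} =
      (((range H).filter fun t : ℕ => (q : ℤ) ∣ Φ.eval (t : ℤ) : Finset ℕ) : Set ℕ) := by
    ext t
    simp
  rw [hfin, Set.ncard_coe_finset]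
  obtain ⟨S, hS⟩ : ∃ S : Finset ℕ, S = (range H).filter fun t : ℕ => (q : ℤ) ∣ Φ.eval (t : ℤ) :=
    ⟨_, rfl⟩
  rw [← hS]
  have hSmem : ∀ t ∈ S, t < H ∧ (q : ℤ) ∣ Φ.eval (t : ℤ) := by
    intro t ht
    rw [hS, mem_filter, mem_range] at ht
    exact ht
  have h1 : S.card ≤ d * (S.image fun t : ℕ => ⌊(t : ℝ) / l⌋₊).card := by
    refine card_le_mul_card_image S d fun b _ => ?_
    refine card_le hdeg (by rw [hlc]; exact ha) (q := q) hl.le ?_ _ ?_ ?_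
    · rw [hlpow, hlc]
      have h2 : |(a : ℝ)| * ((q : ℝ) / (2 * |(a : ℝ)|)) = q / 2 := by
        field_simp
      rw [h2]
      linarith
    · intro t ht
      exact (hSmem t (mem_of_mem_filter t ht)).2
    · intro t ht u hu
      rw [mem_filter] at ht hu
      have h2 : (u : ℝ) / l < b + 1 := by rw [← hu.2]; exact Nat.lt_floor_add_one _
      have h3 : (b : ℝ) ≤ t / l := by rw [← ht.2]; exact Nat.floor_le (by positivity)
      rw [div_lt_iff₀ hl] at h2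
      rw [le_div_iff₀ hl] at h3
      linarith
  have h2 : (S.image fun t : ℕ => ⌊(t : ℝ) / l⌋₊).card ≤ ⌊(H : ℝ) / l⌋₊ + 1 := by
    have h3 : (S.image fun t : ℕ => ⌊(t : ℝ) / l⌋₊) ⊆ range (⌊(H : ℝ) / l⌋₊ + 1) := by
      intro b hb
      rw [mem_image] at hb
      obtain ⟨t, ht, rfl⟩ := hb
      rw [mem_range, Nat.lt_succ_iff]
      apply Nat.floor_mono
      have h4 : (t : ℝ) ≤ H := by exact_mod_cast (hSmem t ht).1.le
      gcongr
    calc _ ≤ (range (⌊(H : ℝ) / l⌋₊ + 1)).card := card_le_card h3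
      _ = _ := card_range _
  have h3 : (S.card : ℝ) ≤ d * ((H : ℝ) / l + 1) := by
    have h4 : (S.card : ℝ) ≤ d * ((⌊(H : ℝ) / l⌋₊ : ℝ) + 1) := by
      exact_mod_cast h1.trans (Nat.mul_le_mul_left d h2)
    have h5 : (⌊(H : ℝ) / l⌋₊ : ℝ) ≤ (H : ℝ) / l := Nat.floor_le (by positivity)
    refine h4.trans ?_
    gcongr
  refine h3.trans ?_
  have h4 : (H : ℝ) / l = H * (q : ℝ) ^ (-(2 / ((d : ℝ) * (d + 1)))) *
      (2 * |(a : ℝ)|) ^ (2 / ((d : ℝ) * (d + 1))) := by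
    rw [hldef, Real.div_rpow hq0.le hA.le, Real.rpow_neg hq0.le]
    field_simp
  have h5 : (1 : ℝ) ≤ (2 * |(a : ℝ)|) ^ (2 / ((d : ℝ) * (d + 1))) :=
    Real.one_le_rpow (by linarith) (by positivity)
  rw [h4]
  have h6 : (0 : ℝ) ≤ H * (q : ℝ) ^ (-(2 / ((d : ℝ) * (d + 1)))) := by positivity
  have h7 : (0 : ℝ) ≤ d := by positivity
  have h8 : (d : ℝ) * (2 * |(a : ℝ)|) ^ (2 / ((d : ℝ) * (d + 1))) *
      (1 + (H : ℝ) * (q : ℝ) ^ (-(2 / ((d : ℝ) * (d + 1))))) =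
      d * (H * (q : ℝ) ^ (-(2 / ((d : ℝ) * (d + 1)))) *
      (2 * |(a : ℝ)|) ^ (2 / ((d : ℝ) * (d + 1))) + (2 * |(a : ℝ)|) ^ (2 / ((d : ℝ) * (d + 1)))) := by
    ring
  rw [h8]
  gcongr

end Pool.Agent.FK.H11
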